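import Pool.Agent.H9.Lap.TargetsG

/-!
EXA: the example graph (MP_c4ad93_co).
-/

namespace Pool.Agent.H89.Lap

open Finset Classical Pool.Agent.H9.Lap

/-- half of the adjacency -/
def E (k i j : ℕ) : Prop := i < 2 * k ∧ (3 * k ≤ j ∨ j = 2 * k + i / 2)

/-- the example graph -/
def GG (n k : ℕ) : SimpleGraph (Fin n) where
  Adj i j := E k i j ∨ E k j i
  symm := ⟨fun _ _ h => h.symm⟩
  loopless := ⟨fun i h => by
    rcases h with h | h <;> · obtain ⟨h1, h2⟩ := h; omega⟩

theorem adj_iff {n k : ℕ} (i j : Fin n) : (GG n k).Adj i j ↔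
    ((i : ℕ) < 2 * k ∧ (3 * k ≤ (j : ℕ) ∨ (j : ℕ) = 2 * k + (i : ℕ) / 2)) ∨
    ((j : ℕ) < 2 * k ∧ (3 * k ≤ (i : ℕ) ∨ (i : ℕ) = 2 * k + (j : ℕ) / 2)) := Iff.rfl

/-- EXA -/
theorem exa : T_EXA := by
  intro n g hg hn
  obtain ⟨k, rfl⟩ : ∃ k, g = k + 1 := ⟨g - 1, by omega⟩
  have hk : 2 ≤ k := by omega
  have hkn : 3 * k < n := by nlinarith
  have mem_A : ∀ i : Fin n, i ∈ univ.filter (fun i : Fin n => (i : ℕ) < 2 * k) ↔ (i : ℕ) < 2 * k :=
    fun i => by simp
  have mem_C : ∀ i : Fin n, i ∈ univ.filter (fun i : Fin n => 2 * k ≤ (i : ℕ) ∧ (i : ℕ) < 3 * k) ↔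
      2 * k ≤ (i : ℕ) ∧ (i : ℕ) < 3 * k := fun i => by simp
  have cardA : (univ.filter (fun i : Fin n => (i : ℕ) < 2 * k)).card = 2 * k := by
    rw [← Finset.card_map Fin.valEmbedding]
    have : (univ.filter (fun i : Fin n => (i : ℕ) < 2 * k)).map Fin.valEmbedding =
        Finset.range (2 * k) := by
      ext x
      simp only [Finset.mem_map, Finset.mem_filter, Finset.mem_univ, true_and,
        Fin.valEmbedding_apply, Finset.mem_range]
      constructor
      · rintro ⟨i, hi, rfl⟩; exact hi
      · intro hx; exact ⟨⟨x, by omega⟩, hx, rfl⟩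
    rw [this, Finset.card_range]
  have cardC : (univ.filter (fun i : Fin n => 2 * k ≤ (i : ℕ) ∧ (i : ℕ) < 3 * k)).card = k := by
    rw [← Finset.card_map Fin.valEmbedding]
    have : (univ.filter (fun i : Fin n => 2 * k ≤ (i : ℕ) ∧ (i : ℕ) < 3 * k)).map
        Fin.valEmbedding = Finset.Ico (2 * k) (3 * k) := by
      ext x
      simp only [Finset.mem_map, Finset.mem_filter, Finset.mem_univ, true_and,
        Fin.valEmbedding_apply, Finset.mem_Ico]
      constructor
      · rintro ⟨i, hi, rfl⟩; exact hi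
      · intro hx; exact ⟨⟨x, by omega⟩, hx, rfl⟩
    rw [this, Nat.card_Ico]
    omega
  refine ⟨GG n k, ?_, ?_, ?_⟩
  · -- connected
    have hreach : ∀ v : Fin n, (GG n k).Reachable ⟨3 * k, hkn⟩ v := by
      have hA : ∀ v : Fin n, (v : ℕ) < 2 * k → (GG n k).Reachable ⟨3 * k, hkn⟩ v := by
        intro v hv
        refine SimpleGraph.Adj.reachable ?_
        rw [adj_iff]
        right
        exact ⟨hv, Or.inl le_rfl⟩
      intro v
      rcases lt_or_ge (v : ℕ) (2 * k) with h1 | h1
      · exact hA v h1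
      · rcases lt_or_ge (v : ℕ) (3 * k) with h2 | h2
        · have h3 : 2 * ((v : ℕ) - 2 * k) < 2 * k := by omega
          refine (hA ⟨2 * ((v : ℕ) - 2 * k), by omega⟩ h3).trans (SimpleGraph.Adj.reachable ?_)
          rw [adj_iff]
          left
          refine ⟨h3, Or.inr ?_⟩
          show (v : ℕ) = 2 * k + (2 * ((v : ℕ) - 2 * k)) / 2
          omega
        · have h3 : (0 : ℕ) < 2 * k := by omega
          refine (hA ⟨0, by omega⟩ h3).trans (SimpleGraph.Adj.reachable ?_)
          rw [adj_iff]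
          left
          exact ⟨h3, Or.inl h2⟩
    have : Nonempty (Fin n) := ⟨⟨3 * k, hkn⟩⟩
    exact ⟨fun u v => (hreach u).symm.trans (hreach v)⟩
  · -- domination number
    constructor
    · refine ⟨insert ⟨0, by omega⟩
        (univ.filter (fun i : Fin n => 2 * k ≤ (i : ℕ) ∧ (i : ℕ) < 3 * k)), ?_, ?_⟩
      · intro v hv
        rw [Finset.mem_insert, not_or, mem_C] at hv
        obtain ⟨hv1, hv2⟩ := hv
        rcases lt_or_ge (v : ℕ) (2 * k) with h1 | h1
        · refine ⟨⟨2 * k + (v : ℕ) / 2, by omega⟩, ?_, ?_⟩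
          · rw [Finset.mem_insert]
            right
            rw [mem_C]
            show 2 * k ≤ 2 * k + (v : ℕ) / 2 ∧ 2 * k + (v : ℕ) / 2 < 3 * k
            omega
          · rw [adj_iff]
            right
            exact ⟨h1, Or.inr rfl⟩
        · refine ⟨⟨0, by omega⟩, Finset.mem_insert_self _ _, ?_⟩
          rw [adj_iff]
          left
          refine ⟨?_, Or.inl ?_⟩
          · show 0 < 2 * k
            omega
          · omega
      · rw [Finset.card_insert_of_notMem, cardC]
        rw [mem_C]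
        intro h
        have : 2 * k ≤ 0 := h.1
        omega
    · rintro m ⟨S, hS, rfl⟩
      by_contra hlt
      push Not at hlt
      -- classes
      let φ : Fin n → ℕ := fun i => if (i : ℕ) < 2 * k then (i : ℕ) / 2 else
        if (i : ℕ) < 3 * k then (i : ℕ) - 2 * k else k
      have hφ : ∀ i : Fin n, φ i = if (i : ℕ) < 2 * k then (i : ℕ) / 2 else
        if (i : ℕ) < 3 * k then (i : ℕ) - 2 * k else k := fun i => rfl
      have hsub : Finset.range k ⊆ S.image φ := by
        intro j hj
        rw [Finset.mem_range] at hj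
        rw [Finset.mem_image]
        by_cases hc : (⟨2 * k + j, by omega⟩ : Fin n) ∈ S
        · refine ⟨_, hc, ?_⟩
          rw [hφ, if_neg, if_pos]
          · show 2 * k + j - 2 * k = j
            omega
          · show 2 * k + j < 3 * k
            omega
          · show ¬ 2 * k + j < 2 * k
            omega
        · obtain ⟨s, hs, had⟩ := hS _ hc
          rw [adj_iff] at had
          refine ⟨s, hs, ?_⟩
          have h0 : ((⟨2 * k + j, by omega⟩ : Fin n) : ℕ) = 2 * k + j := rfl
          rw [h0] at had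
          have h1 : (s : ℕ) < 2 * k := by omega
          rw [hφ, if_pos h1]
          omega
      have hc1 : k ≤ (S.image φ).card := by
        have := Finset.card_le_card hsub
        rwa [Finset.card_range] at this
      have hc2 : (S.image φ).card ≤ S.card := Finset.card_image_le
      have hc3 : (S.image φ).card = S.card := by omega
      have hinj : Set.InjOn φ S := Finset.card_image_iff.1 hc3
      have himg : Finset.range k = S.image φ :=
        Finset.eq_of_subset_of_card_le hsub (by rw [Finset.card_range]; omega)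
      have hlt3 : ∀ s ∈ S, (s : ℕ) < 3 * k := by
        intro s hs
        by_contra h
        have h1 : φ s ∈ Finset.range k := by
          rw [himg]; exact Finset.mem_image_of_mem φ hs
        rw [hφ, if_neg (by omega), if_neg h, Finset.mem_range] at h1
        omega
      have hb0 : (⟨3 * k, hkn⟩ : Fin n) ∉ S := fun h => by
        have := hlt3 _ h
        have h2 : ((⟨3 * k, hkn⟩ : Fin n) : ℕ) = 3 * k := rfl
        omega
      obtain ⟨s, hs, had⟩ := hS _ hb0
      rw [adj_iff] at had
      have h0 : ((⟨3 * k, hkn⟩ : Fin n) : ℕ) = 3 * k := rfl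
      rw [h0] at had
      have hs2 : (s : ℕ) < 2 * k := by omega
      -- the sibling of `s`
      obtain ⟨s', hs', hne⟩ : ∃ s' : Fin n, (s' : ℕ) / 2 = (s : ℕ) / 2 ∧ (s' : ℕ) ≠ (s : ℕ) := by
        rcases Nat.even_or_odd (s : ℕ) with ⟨r, hr⟩ | ⟨r, hr⟩
        · refine ⟨⟨(s : ℕ) + 1, by omega⟩, ?_, ?_⟩
          · show ((s : ℕ) + 1) / 2 = (s : ℕ) / 2
            omega
          · show (s : ℕ) + 1 ≠ (s : ℕ)
            omega
        · refine ⟨⟨(s : ℕ) - 1, by omega⟩, ?_, ?_⟩
          · show ((s : ℕ) - 1) / 2 = (s : ℕ) / 2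
            omega
          · show (s : ℕ) - 1 ≠ (s : ℕ)
            omega
      have hs'2 : (s' : ℕ) < 2 * k := by omega
      have hφs : φ s = (s : ℕ) / 2 := by rw [hφ, if_pos hs2]
      have hφs' : φ s' = (s : ℕ) / 2 := by rw [hφ, if_pos hs'2, hs']
      have hs'S : s' ∉ S := by
        intro h
        have := hinj h hs (by rw [hφs, hφs'])
        exact hne (by rw [this])
      obtain ⟨r, hr, had2⟩ := hS _ hs'S
      rw [adj_iff] at had2
      have hr3 := hlt3 r hr
      have hr2 : (r : ℕ) = 2 * k + (s' : ℕ) / 2 := by omega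
      have hφr : φ r = (s : ℕ) / 2 := by
        rw [hφ, if_neg (by omega), if_pos hr3]
        omega
      have := hinj hr hs (by rw [hφs, hφr])
      rw [this] at hr2
      omega
  · -- structure
    refine ⟨univ.filter (fun i : Fin n => (i : ℕ) < 2 * k),
      univ.filter (fun i : Fin n => 2 * k ≤ (i : ℕ) ∧ (i : ℕ) < 3 * k), ?_, ?_, ?_, ?_, ?_, ?_, ?_⟩
    · rw [Finset.disjoint_left]
      intro i h1 h2
      rw [mem_A] at h1
      rw [mem_C] at h2
      omega
    · rw [cardC]; rfl
    · rw [cardA]; rfl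
    · intro a ha b hbA hbC
      rw [mem_A] at ha hbA
      rw [mem_C] at hbC
      rw [adj_iff]
      omega
    · intro c hc b hbA hbC
      rw [mem_A] at hbA
      rw [mem_C] at hbC hc
      rw [adj_iff]
      omega
    · intro c hc
      rw [mem_C] at hc
      have heq : (univ.filter (fun i : Fin n => (i : ℕ) < 2 * k)).filter
          (fun a => (GG n k).Adj c a) =
          {(⟨2 * ((c : ℕ) - 2 * k), by omega⟩ : Fin n),
            (⟨2 * ((c : ℕ) - 2 * k) + 1, by omega⟩ : Fin n)} := by
        ext i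
        rw [Finset.mem_filter, mem_A, adj_iff, Finset.mem_insert, Finset.mem_singleton,
          Fin.ext_iff, Fin.ext_iff]
        show _ ↔ (i : ℕ) = 2 * ((c : ℕ) - 2 * k) ∨ (i : ℕ) = 2 * ((c : ℕ) - 2 * k) + 1
        omega
      rw [heq, Finset.card_pair]
      intro h
      have := congrArg (fun x : Fin n => (x : ℕ)) h
      simp at this
    · intro a ha
      rw [mem_A] at ha
      refine ⟨⟨2 * k + (a : ℕ) / 2, by omega⟩, ⟨?_, ?_⟩, ?_⟩
      · rw [mem_C]
        show 2 * k ≤ 2 * k + (a : ℕ) / 2 ∧ 2 * k + (a : ℕ) / 2 < 3 * k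
        omega
      · rw [adj_iff]
        right
        exact ⟨ha, Or.inr rfl⟩
      · rintro c ⟨hc1, hc2⟩
        rw [mem_C] at hc1
        rw [adj_iff] at hc2
        rw [Fin.ext_iff]
        show (c : ℕ) = 2 * k + (a : ℕ) / 2
        omega

end Pool.Agent.H89.Lap
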