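import Pool.Agent.H9.Lap.Targets

/-!
GAM: the gain at one hub (MP_c4ad93_co).
-/

namespace Pool.Agent.H89.Lap

open Finset Classical Pool.Agent.H9.Lap

/-- GAM -/
theorem gam (hLCX : T_LCX) (hLOA : T_LOA) (hLOB : T_LOB) (hLOC : T_LOC) (hNUA : T_NUA)
    (hNUB : T_NUB) (hNUC : T_NUC) (hNUD : T_NUD) (hPHI : T_PHI) : T_GAM := by
  intro V _ F f t lam a b hB hmax hmin hK hC hba hph k hk
  have ht1 : (1 : ℝ) ≤ t := by exact_mod_cast hB.t1
  have hL0 : 0 ≤ lam - t := hK.L0
  have hlt : lam < t + 1 := hB.lt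
  have hM0 : 0 < f a := hK.pa
  have hm0 : 0 < - f b := by have := hK.nb0; linarith
  have hmin' : ∀ v, - (- f b) ≤ f v := fun v => by rw [neg_neg]; exact hmin v
  have hP := hPHI V f (f a) (- f b) hB.sum0 hmax hmin' hM0.le hm0.le (by linarith)
  have hnum : Num (t : ℝ) (Fintype.card V : ℝ) (lam - t) (f a) (- f b) (Phi f) :=
    { t1 := ht1
      big := hB.big
      L0 := hL0
      L1 := by linarith
      hq := by
        have h := hB.hq
        have h2 : (Fintype.card V : ℝ) - t - (lam - t) - 2 = (Fintype.card V : ℝ) - lam - 2 := by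
          ring
        rw [h2]; exact h
      m0 := hm0
      mM := hba
      hP := hP.1
      hB := hph }
  have hbig := hB.big
  have hn4 : 0 < (Fintype.card V : ℝ) - t - 4 := by nlinarith
  obtain ⟨hd1, hd2, hd3⟩ := hNUD _ _ _ _ _ _ hnum
  have hD : f a - f b = f a + - f b := by ring
  have hLoc := hLCX V F f t lam a b hB.toCtx hK hC (by rw [hD]; linarith) (by rw [hD]; linarith)
    k hk
  rw [hD] at hLoc
  rw [hD]
  have hX : ((nn F k).card : ℝ) ≤ (Fintype.card V : ℝ) := by
    exact_mod_cast Finset.card_le_univ _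
  have hth0 : 0 ≤ (lam - t) * (f a + - f b) := mul_nonneg hL0 (by linarith)
  have hinv : 0 ≤ 1 / ((Fintype.card V : ℝ) - t - 4) := by positivity
  have hfour : 4 / ((Fintype.card V : ℝ) - t - 4) = 4 * (1 / ((Fintype.card V : ℝ) - t - 4)) := by
    ring
  have hMm : 0 < f a * (- f b) := mul_pos hM0 hm0
  have hfk1 : f k ≤ f a := hmax k
  have hfk2 : - (- f b) ≤ f k := hmin' k
  -- the two trivial consequences of a gain of `4 M m`
  have key : ∀ G : ℝ, 4 * (f a * (- f b)) ≤ G →
      2 * (f a * (- f b)) - (2 * (lam - t) + 1 / ((Fintype.card V : ℝ) - t - 4)) *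
        (f a + - f b) ^ 2 ≤ G ∧
      4 * (f a * (- f b)) - (4 * (lam - t) + 4 / ((Fintype.card V : ℝ) - t - 4)) *
        (f a + - f b) ^ 2 ≤ G := by
    intro G hG
    have h1 : 0 ≤ (2 * (lam - t) + 1 / ((Fintype.card V : ℝ) - t - 4)) * (f a + - f b) ^ 2 := by
      positivity
    have h2 : 0 ≤ (4 * (lam - t) + 4 / ((Fintype.card V : ℝ) - t - 4)) * (f a + - f b) ^ 2 := by
      positivity
    constructor <;> linarith
  rcases lt_or_ge (f a - (lam - t) * (f a + - f b)) (f k) with h1 | h1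
  · -- hub near the maximum
    have hb := hLOB V F f _ _ (f a) (- f b) ((lam - t) * (f a + - f b)) (f k) hLoc hmax hmin'
      hth0 (by nlinarith) h1.le hfk1
    have hnb := hNUB _ _ _ _ _ _ (f k) hnum h1.le
    have hc : 2 * ((lam - t) * (f a + - f b)) * (f a + - f b) * ((nn F k).card : ℝ) ≤
        2 * ((lam - t) * (f a + - f b)) * (f a + - f b) * (Fintype.card V : ℝ) :=
      mul_le_mul_of_nonneg_left hX (by
        have : 0 ≤ f a + - f b := by linarith
        positivity)
    have hk2 := key _ (show 4 * (f a * (- f b)) ≤ ((Fintype.card V : ℝ) - t) * f k ^ 2 +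
      EN F f (PX (WW F (nb F a ∩ nb F b) k) (nn F k)) - ∑ x ∈ nn F k, (f x - f k) ^ 2 by linarith)
    exact ⟨hk2.1, Or.inl hk2.2⟩
  · rcases lt_or_ge (f k) (-(- f b - (lam - t) * (f a + - f b))) with h2 | h2
    · -- hub near the minimum
      have hc := hLOC V F f _ _ (f a) (- f b) ((lam - t) * (f a + - f b)) (f k) hLoc hmax hmin'
        hth0 hd1 hd2 hfk2 h2.le
      have hcP : (((nn F k).filter (fun x => f a / 2 < f x)).card : ℝ) * (f a / 2) ≤ Phi f := by
        rw [← nsmul_eq_mul]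
        refine (Finset.card_nsmul_le_sum _ f (f a / 2) (fun x hx => ?_)).trans ?_
        · exact (Finset.mem_filter.1 hx).2.le
        · unfold Phi
          refine Finset.sum_le_sum_of_subset_of_nonneg (fun x hx => ?_) (fun x hx _ => ?_)
          · rw [mem_Pos]
            have := (Finset.mem_filter.1 hx).2
            linarith
          · exact (mem_Pos.1 hx).le
      have hnc := hNUC _ _ _ _ _ _ (f k) _ hnum h2.le hcP
      have hc2 : ((lam - t) * (f a + - f b)) ^ 2 * ((nn F k).card : ℝ) ≤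
          ((lam - t) * (f a + - f b)) ^ 2 * (Fintype.card V : ℝ) :=
        mul_le_mul_of_nonneg_left hX (by positivity)
      have hk2 := key _ (show 4 * (f a * (- f b)) ≤ ((Fintype.card V : ℝ) - t) * f k ^ 2 +
        EN F f (PX (WW F (nb F a ∩ nb F b) k) (nn F k)) - ∑ x ∈ nn F k, (f x - f k) ^ 2 by
          linarith)
      exact ⟨hk2.1, Or.inl hk2.2⟩
    · -- hub in the middle
      obtain ⟨ha1, ha2⟩ := hLOA V F f _ _ _ _ (f k) hLoc h2 h1
      have hu1 := hNUA _ _ _ _ _ _ (f k) 1 hnum le_rfl (by norm_num)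
      have hu2 := hNUA _ _ _ _ _ _ (f k) 2 hnum (by norm_num) le_rfl
      have e1 : ((2 : ℝ) * 1 * (lam - t) + 1 ^ 2 / ((Fintype.card V : ℝ) - t - 4)) =
          2 * (lam - t) + 1 / ((Fintype.card V : ℝ) - t - 4) := by ring
      have e2 : ((2 : ℝ) * 2 * (lam - t) + 2 ^ 2 / ((Fintype.card V : ℝ) - t - 4)) =
          4 * (lam - t) + 4 / ((Fintype.card V : ℝ) - t - 4) := by ring
      rw [e1] at hu1
      rw [e2] at hu2
      refine ⟨by linarith, ?_⟩
      rcases ha2 with ha2 | ha2
      · left; linarith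
      · right
        have e3 : (f a - (lam - t) * (f a + - f b) + (- f b - (lam - t) * (f a + - f b))) ^ 2 / 4
            = (f a + - f b) ^ 2 * (1 - 2 * (lam - t)) ^ 2 / 4 := by ring
        rw [e3] at ha2
        linarith

end Pool.Agent.H89.Lap
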