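import Pool.Agent.H9.Lap.Targets

/-!
REP: the set of hubs and the representatives (MP_c4ad93_co).
-/

namespace Pool.Agent.H89.Lap

open Finset Classical Pool.Agent.H9.Lap

/-- REP -/
theorem rep (hEDG : T_EDG) (hCSC : T_CSC) : T_REP := by
  intro V _ F f t lam a w0 hRA
  obtain ⟨hE1, hE2, hE3, haS⟩ := hEDG V F f t lam a w0 hRA
  obtain ⟨-, hKc, hClq, hKw⟩ := hCSC V F f t lam a w0 hRA a haS
  have hL0 := hRA.L0
  have hL6 := hRA.L6
  have hap := hRA.apos
  have hsm := hRA.small
  have hPhi := Phi_nonneg f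
  have heta : 0 ≤ (lam - t) * Phi f := mul_nonneg hL0 hPhi
  have hS0 : ∀ s, s ∈ S0 F f t ↔ 0 < f s ∧ ed F f s = t := by
    intro s
    simp [S0]
  have hpos : ∀ x, (1 - (lam - t)) * f a - (lam - t) * Phi f ≤ f x → x ∈ S0 F f t := by
    intro x hx
    apply hE1 x
    nlinarith
  have hmemK : ∀ v, v ∈ Cs F f a ↔ F.Adj a v ∧ f v ≤ 0 := by
    intro v
    rw [Cs, Finset.mem_inter, mem_nb, mem_Npos]
  have hex : ∀ k, ∃ x, k ∈ Cs F f a → (x ∈ nn F k ∧
      (1 - (lam - t)) * f a - (lam - t) * Phi f ≤ f x) := by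
    intro k
    by_cases hk : k ∈ Cs F f a
    · obtain ⟨y, hy1, hy2⟩ := hRA.nu k
      have hyn : y ∈ nn F k := mem_nn.2 ⟨hy1, hy2⟩
      obtain ⟨u, huW, huy, hua⟩ := hClq.q k hk y hyn a
      obtain ⟨huK, hu2⟩ := (Finset.mem_filter.1 huW).2
      have hfu : 0 < f u := by
        by_contra h
        push Not at h
        exact huK ((hmemK u).2 ⟨hua.symm, h⟩)
      have h3 := hE3 u hua.symm hfu
      have hfu2 : (1 - (lam - t)) * f a ≤ f u := by linarith
      by_cases huk : F.Adj u k
      · have hsub : Cs F f a ⊆ Cs F f u := by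
          intro k' hk'
          rw [Cs, Finset.mem_inter, mem_nb, mem_Npos]
          refine ⟨?_, ((hmemK k').1 hk').2⟩
          by_cases h : k' = k
          · rw [h]; exact huk
          · exact hu2 k' hk' h
        have huS := hpos u (by linarith)
        have hcu : (Cs F f u).card = t := ((hS0 u).1 huS).2
        have heq : Cs F f a = Cs F f u := Finset.eq_of_subset_of_card_le hsub (by rw [hcu, hKc])
        have hfy : 0 < f y := by
          by_contra h
          push Not at h
          have hy : y ∈ Cs F f a := by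
            rw [heq, Cs, Finset.mem_inter, mem_nb, mem_Npos]
            exact ⟨huy, h⟩
          exact Finset.disjoint_left.1 (hClq.out k hk) hyn hy
        have h4 := hE2 u y hfu hfy huy
        exact ⟨y, fun _ => ⟨hyn, by linarith⟩⟩
      · refine ⟨u, fun _ => ⟨mem_nn.2 ⟨?_, fun h => huk h.symm⟩, by linarith⟩⟩
        rintro rfl
        exact huK hk
    · exact ⟨a, fun h => absurd h hk⟩
  choose x hx using hex
  have hxS : ∀ k ∈ Cs F f a, x k ∈ S0 F f t := fun k hk => hpos _ (hx k hk).2
  have hxp : ∀ k ∈ Cs F f a, 0 < f (x k) := fun k hk => ((hS0 _).1 (hxS k hk)).1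
  have hxe : ∀ k ∈ Cs F f a, ed F f (x k) = t := fun k hk => ((hS0 _).1 (hxS k hk)).2
  have hxn : ∀ k ∈ Cs F f a, ¬ F.Adj (x k) k := fun k hk h => (mem_nn.1 (hx k hk).1).2 h.symm
  have hxadj : ∀ k ∈ Cs F f a, ∀ k' ∈ Cs F f a, k' ≠ k → F.Adj (x k) k' := by
    intro k hk k' hk' hne
    have h1 : x k ∉ nn F k' := fun h =>
      Finset.disjoint_left.1 (hClq.disj k hk k' hk' hne.symm) (hx k hk).1 h
    by_contra h
    apply h1
    refine mem_nn.2 ⟨fun h2 => ?_, fun h2 => h h2.symm⟩
    have h3 := hxp k hk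
    rw [h2] at h3
    have := ((hmemK k').1 hk').2
    linarith
  obtain ⟨w, -, hfw, hwx⟩ := hKw ((Cs F f a).image x) (by
    have := Finset.card_image_le (s := Cs F f a) (f := x)
    omega)
  have hwx' : ∀ k ∈ Cs F f a, F.Adj (x k) w := fun k hk =>
    (hwx (x k) (Finset.mem_image_of_mem x hk)).symm
  have hwK : w ∉ Cs F f a := fun h => hxn w h (hwx' w h)
  have hCsx : ∀ k ∈ Cs F f a, Cs F f (x k) = insert w ((Cs F f a).erase k) := by
    intro k hk
    symm
    apply Finset.eq_of_subset_of_card_le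
    · intro v hv
      rw [Cs, Finset.mem_inter, mem_nb, mem_Npos]
      rcases Finset.mem_insert.1 hv with rfl | hv
      · exact ⟨hwx' k hk, hfw⟩
      · obtain ⟨hv1, hv2⟩ := Finset.mem_erase.1 hv
        exact ⟨hxadj k hk v hv2 hv1, ((hmemK v).1 hv2).2⟩
    · have h1 : (Cs F f (x k)).card = t := hxe k hk
      rw [h1, Finset.card_insert_of_notMem (fun h => hwK (Finset.mem_of_mem_erase h)),
        Finset.card_erase_of_mem hk, hKc]
      have : 0 < (Cs F f a).card := Finset.card_pos.2 ⟨k, hk⟩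
      omega
  have hal : (1 - (lam - t)) * f a - (lam - t) * Phi f ≤ f a := by nlinarith
  refine ⟨insert w (Cs F f a), fun c => if c = w then a else x c, ?_⟩
  have hne : ∀ c ∈ Cs F f a, c ≠ w := fun c hc h => hwK (h ▸ hc)
  refine
    { card := by rw [Finset.card_insert_of_notMem hwK, hKc]
      neg := ?_
      pos := ?_
      e := ?_
      cs := ?_
      high := ?_
      top := ⟨w, Finset.mem_insert_self _ _, if_pos rfl⟩ }
  · intro c hc
    rcases Finset.mem_insert.1 hc with rfl | hc
    · exact hfw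
    · exact ((hmemK c).1 hc).2
  · intro c hc
    rcases Finset.mem_insert.1 hc with rfl | hc
    · simpa using hap
    · simpa [hne c hc] using hxp c hc
  · intro c hc
    rcases Finset.mem_insert.1 hc with rfl | hc
    · simpa using ((hS0 a).1 haS).2
    · simpa [hne c hc] using hxe c hc
  · intro c hc
    rcases Finset.mem_insert.1 hc with rfl | hc
    · rw [if_pos rfl, Finset.erase_insert hwK]
    · rw [if_neg (hne c hc), hCsx c hc, Finset.erase_insert_of_ne (hne c hc).symm]
  · intro c hc
    rcases Finset.mem_insert.1 hc with rfl | hc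
    · simpa using hal
    · simpa [hne c hc] using (hx c hc).2

end Pool.Agent.H89.Lap
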